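import Pool.Agent.Helper16.OG.Stmts

set_option autoImplicit false

/-! Rows SPL and EX: linear algebra. -/

namespace Pool.Agent.Helper16.OG

open Finset Pool.Agent.Helper77.PMan

noncomputable section

open scoped Classical

universe u

theorem ex_split {V : Type u} [AddCommGroup V] [Module (ZMod 2) V] [FiniteDimensional (ZMod 2) V]
    (U U₁ U₂ : Submodule (ZMod 2) V) (π : V →ₗ[ZMod 2] V) (h1 : ∀ T ∈ U, π T ∈ U₁)
    (h2 : ∀ T ∈ U, π T = 0 → T ∈ U₂) :
    Module.finrank (ZMod 2) U ≤ Module.finrank (ZMod 2) U₁ + Module.finrank (ZMod 2) U₂ := by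
  have h := LinearMap.finrank_range_add_finrank_ker (π.comp U.subtype)
  have h3 : Module.finrank (ZMod 2) (LinearMap.range (π.comp U.subtype)) ≤
      Module.finrank (ZMod 2) U₁ := by
    refine Submodule.finrank_mono ?_
    rintro _ ⟨T, rfl⟩
    exact h1 T T.2
  have h4 : Module.finrank (ZMod 2) (LinearMap.ker (π.comp U.subtype)) ≤
      Module.finrank (ZMod 2) U₂ := by
    rw [← Submodule.finrank_map_subtype_eq]
    refine Submodule.finrank_mono ?_
    rintro _ ⟨T, hT, rfl⟩
    exact h2 T T.2 hT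
  omega

/-- restriction to `Y` -/
def exRes {α : Type u} (Y : Finset α) : (α → ZMod 2) →ₗ[ZMod 2] (α → ZMod 2) where
  toFun T := fun x => if x ∈ Y then T x else 0
  map_add' S T := by
    funext x
    show (if x ∈ Y then S x + T x else 0) = (if x ∈ Y then S x else 0) + if x ∈ Y then T x else 0
    split_ifs
    · rfl
    · rw [add_zero]
  map_smul' c T := by
    funext x
    show (if x ∈ Y then c * T x else 0) = c * if x ∈ Y then T x else 0
    split_ifs
    · rfl
    · rw [mul_zero]

theorem exRes_apply {α : Type u} (Y : Finset α) (T : α → ZMod 2) (x : α) :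
    exRes Y T x = if x ∈ Y then T x else 0 := rfl

theorem st_SPL : ST_SPL.{u} := by
  intro α _ r N₁ N₂ Y₁ Y₂ hd hr
  refine ex_split _ _ _ (exRes Y₁) ?_ ?_
  · rintro T ⟨hT1, hT2⟩
    refine ⟨fun x hx => by rw [exRes_apply, if_neg hx], fun H hH => ?_⟩
    rw [← hT2 H (mem_union_left _ hH), filter_union]
    have h0 : Y₂.filter (fun x => r x H) = ∅ := by
      rw [filter_eq_empty_iff]
      intro y hy
      exact hr y hy H hH
    rw [h0, union_empty]
    refine sum_congr rfl fun x hx => ?_
    rw [exRes_apply, if_pos (mem_filter.1 hx).1]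
  · rintro T ⟨hT1, hT2⟩ h0
    have hz : ∀ x ∈ Y₁, T x = 0 := by
      intro x hx
      have h := congrFun h0 x
      rw [exRes_apply, if_pos hx] at h
      exact h
    refine ⟨fun x hx => ?_, fun H hH => ?_⟩
    · by_cases hx1 : x ∈ Y₁
      · exact hz x hx1
      · exact hT1 x (by rw [mem_union]; tauto)
    · rw [← hT2 H (mem_union_right _ hH), filter_union, sum_union]
      · have h1 : ∑ x ∈ Y₁.filter (fun x => r x H), T x = 0 :=
          sum_eq_zero fun x hx => hz x (mem_filter.1 hx).1
        rw [h1, zero_add]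
      · exact disjoint_filter_filter hd

/-- functions supported on `Y` -/
def exExt {α : Type u} (Y : Finset α) : (Y → ZMod 2) →ₗ[ZMod 2] (α → ZMod 2) where
  toFun f := fun x => if h : x ∈ Y then f ⟨x, h⟩ else 0
  map_add' S T := by
    funext x
    show (if h : x ∈ Y then S ⟨x, h⟩ + T ⟨x, h⟩ else 0) =
      (if h : x ∈ Y then S ⟨x, h⟩ else 0) + if h : x ∈ Y then T ⟨x, h⟩ else 0
    split_ifs
    · rfl
    · rw [add_zero]
  map_smul' c T := by
    funext x
    show (if h : x ∈ Y then c * T ⟨x, h⟩ else 0) = c * if h : x ∈ Y then T ⟨x, h⟩ else 0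
    split_ifs
    · rfl
    · rw [mul_zero]

theorem exExt_apply {α : Type u} (Y : Finset α) (T : Y → ZMod 2) (x : α) :
    exExt Y T x = if h : x ∈ Y then T ⟨x, h⟩ else 0 := rfl

theorem ex_card {α : Type u} [Fintype α] (r : α → α → Prop) (Y : Finset α) :
    Y.card ≤ Module.finrank (ZMod 2) (W r ∅ Y) := by
  have h : ∀ f, exExt Y f ∈ W r ∅ Y := fun f =>
    ⟨fun x hx => by rw [exExt_apply, dif_neg hx], fun H hH => absurd hH (notMem_empty H)⟩
  have h2 : Function.Injective ((exExt Y).codRestrict (W r ∅ Y) h) := by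
    intro f g hfg
    funext y
    have h3 := congrFun (congrArg Subtype.val hfg) y
    have h4 : exExt Y f y = exExt Y g y := h3
    rw [exExt_apply, exExt_apply, dif_pos y.2, dif_pos y.2] at h4
    exact h4
  have h3 := LinearMap.finrank_le_finrank_of_injective h2
  rw [Module.finrank_fintype_fun_eq_card, Fintype.card_coe] at h3
  exact h3

/-- the coboundary -/
def exD {α : Type u} (r : α → α → Prop) (Y₀ Y₁ : Finset α) :
    (α → ZMod 2) →ₗ[ZMod 2] (α → ZMod 2) where
  toFun T := fun x => if x ∈ Y₁ then ∑ y ∈ Y₀.filter (fun y => r y x), T y else 0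
  map_add' S T := by
    funext x
    show (if x ∈ Y₁ then ∑ y ∈ Y₀.filter (fun y => r y x), (S y + T y) else 0) =
      (if x ∈ Y₁ then ∑ y ∈ Y₀.filter (fun y => r y x), S y else 0) +
        if x ∈ Y₁ then ∑ y ∈ Y₀.filter (fun y => r y x), T y else 0
    split_ifs
    · exact sum_add_distrib
    · rw [add_zero]
  map_smul' c T := by
    funext x
    show (if x ∈ Y₁ then ∑ y ∈ Y₀.filter (fun y => r y x), (c * T y) else 0) =
      c * if x ∈ Y₁ then ∑ y ∈ Y₀.filter (fun y => r y x), T y else 0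
    split_ifs
    · rw [mul_sum]
    · rw [mul_zero]

theorem exD_apply {α : Type u} (r : α → α → Prop) (Y₀ Y₁ : Finset α) (T : α → ZMod 2) (x : α) :
    exD r Y₀ Y₁ T x = if x ∈ Y₁ then ∑ y ∈ Y₀.filter (fun y => r y x), T y else 0 := rfl

theorem st_EX : ST_EX.{u} := by
  intro α _ r Y₀ Y₁ Y₂ hev
  refine (ex_card r Y₀).trans ?_
  rw [add_comm]
  refine ex_split _ _ _ (exD r Y₀ Y₁) ?_ ?_
  · rintro T ⟨hT1, hT2⟩
    refine ⟨fun x hx => by rw [exD_apply, if_neg hx], fun H hH => ?_⟩
    have h1 : ∑ x ∈ Y₁.filter (fun x => r x H), exD r Y₀ Y₁ T x =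
        ∑ x ∈ Y₁.filter (fun x => r x H), ∑ y ∈ Y₀, if r y x then T y else 0 := by
      refine sum_congr rfl fun x hx => ?_
      rw [exD_apply, if_pos (mem_filter.1 hx).1, sum_filter]
    rw [h1, sum_comm]
    refine sum_eq_zero fun y hy => ?_
    rw [← sum_filter, filter_filter, sum_const, nsmul_eq_mul]
    have h2 : (Y₁.filter (fun x => r x H ∧ r y x)) = Y₁.filter (fun x => r y x ∧ r x H) := by
      ext x
      simp only [mem_filter]
      tauto
    rw [h2, (ZMod.natCast_eq_zero_iff_even).2 (hev y hy H hH), zero_mul]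
  · rintro T ⟨hT1, hT2⟩ h0
    refine ⟨hT1, fun x hx => ?_⟩
    have h := congrFun h0 x
    rw [exD_apply, if_pos hx] at h
    exact h

end

end Pool.Agent.Helper16.OG
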