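import Pool.Agent.Helper19.OG.EX

set_option autoImplicit false

/-! Row GL: cycles of a graph. -/

namespace Pool.Agent.Helper16.OG

open Finset Pool.Agent.Helper77.PMan

noncomputable section

open scoped Classical

universe u

/-- the incidence matrix -/
def glM {α : Type u} (r : α → α → Prop) (N Y : Finset α) : Matrix N Y (ZMod 2) :=
  Matrix.of fun H y => if r y H then 1 else 0

theorem glM_apply {α : Type u} (r : α → α → Prop) (N Y : Finset α) (H : N) (y : Y) :
    glM r N Y H y = if r y H then 1 else 0 := rfl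

theorem gl_mulVec {α : Type u} (r : α → α → Prop) (N Y : Finset α) (T : α → ZMod 2) (H : N) :
    (glM r N Y).mulVec (fun y => T y) H = ∑ x ∈ Y.filter (fun x => r x H), T x := by
  show ∑ y : Y, (if r y H then (1 : ZMod 2) else 0) * T y = _
  rw [sum_filter, ← sum_coe_sort Y]
  refine sum_congr rfl fun y _ => ?_
  split_ifs
  · rw [one_mul]
  · rw [zero_mul]

theorem gl_le {α : Type u} [Fintype α] (r : α → α → Prop) (N Y : Finset α) :
    Module.finrank (ZMod 2) (W r N Y) ≤
      Module.finrank (ZMod 2) (LinearMap.ker (glM r N Y).mulVecLin) := by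
  obtain ⟨f, hf⟩ : ∃ f : (W r N Y) →ₗ[ZMod 2] (Y → ZMod 2), ∀ T (y : Y), f T y = (T : α → ZMod 2) y :=
    ⟨{ toFun := fun T (y : Y) => (T : α → ZMod 2) y
       map_add' := fun _ _ => rfl
       map_smul' := fun _ _ => rfl }, fun _ _ => rfl⟩
  have hk : ∀ T, f T ∈ LinearMap.ker (glM r N Y).mulVecLin := by
    intro T
    rw [LinearMap.mem_ker, Matrix.mulVecLin_apply]
    funext H
    have h1 : f T = fun y : Y => (T : α → ZMod 2) y := funext fun y => hf T y
    rw [h1, gl_mulVec]
    exact T.2.2 H H.2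
  have h2 : Function.Injective (f.codRestrict _ hk) := by
    intro S T hST
    apply Subtype.ext
    funext x
    by_cases hx : x ∈ Y
    · have h3 : f S = f T := congrArg Subtype.val hST
      have h4 := congrFun h3 ⟨x, hx⟩
      rw [hf, hf] at h4
      exact h4
    · rw [S.2.1 x hx, T.2.1 x hx]
  exact LinearMap.finrank_le_finrank_of_injective h2

theorem st_GL : ST_GL.{u} := by
  intro α _ r N Y o h2 hC
  obtain ⟨M, hM⟩ : ∃ M, M = glM r N Y := ⟨_, rfl⟩
  have e1 := gl_le r N Y
  rw [← hM] at e1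
  have e2 := LinearMap.finrank_range_add_finrank_ker M.mulVecLin
  rw [Module.finrank_fintype_fun_eq_card, Fintype.card_coe] at e2
  have e3 := LinearMap.finrank_range_add_finrank_ker M.transpose.mulVecLin
  rw [Module.finrank_fintype_fun_eq_card, Fintype.card_coe] at e3
  have e4 : Module.finrank (ZMod 2) (LinearMap.range M.transpose.mulVecLin) =
      Module.finrank (ZMod 2) (LinearMap.range M.mulVecLin) := Matrix.rank_transpose M
  obtain ⟨Φ, hΦ⟩ : ∃ Φ, Φ = LinearMap.ker M.transpose.mulVecLin := ⟨_, rfl⟩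
  rw [← hΦ] at e3
  -- the elements of Φ are constant along the edges
  have hedge : ∀ φ ∈ Φ, ∀ y ∈ Y, ∀ H H' : N, r y H → r y H' → φ H = φ H' := by
    intro φ hφ y hy H H' hH hH'
    by_cases hne : H = H'
    · rw [hne]
    rw [hΦ, LinearMap.mem_ker, Matrix.mulVecLin_apply] at hφ
    have h3 := congrFun hφ ⟨y, hy⟩
    have h4 : ∑ K : N, (if r y K then (1 : ZMod 2) else 0) * φ K = 0 := by
      rw [hM] at h3
      exact h3
    have h5 : ∀ K : N, K ≠ H → K ≠ H' → ¬ r y K := by
      intro K h6 h7 h8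
      have h9 := h2 y hy
      have h10 : ({(H : α), (H' : α), (K : α)} : Finset α) ⊆ N.filter (fun H => r y H) := by
        intro z hz
        simp only [mem_insert, mem_singleton] at hz
        rw [mem_filter]
        rcases hz with rfl | rfl | rfl
        · exact ⟨H.2, hH⟩
        · exact ⟨H'.2, hH'⟩
        · exact ⟨K.2, h8⟩
      have h11 : ({(H : α), (H' : α), (K : α)} : Finset α).card = 3 := by
        rw [card_eq_three]
        exact ⟨H, H', K, fun h => hne (Subtype.ext h), fun h => h6 (Subtype.ext h.symm),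
          fun h => h7 (Subtype.ext h.symm), rfl⟩
      have h12 := card_le_card h10
      omega
    rw [sum_eq_add_of_mem H H' (mem_univ _) (mem_univ _) hne] at h4
    · rw [if_pos hH, if_pos hH', one_mul, one_mul] at h4
      have h13 : φ H = - φ H' := eq_neg_of_add_eq_zero_left h4
      rw [h13]
      exact ZMod.neg_eq_self_mod_two _
    · rintro K - ⟨h6, h7⟩
      rw [if_neg (h5 K h6 h7), zero_mul]
  -- the classes
  obtain ⟨c, hc⟩ : ∃ c : N → (Φ → ZMod 2), c = fun (H : N) (φ : Φ) => (φ : N → ZMod 2) H :=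
    ⟨_, rfl⟩
  obtain ⟨I, hI⟩ : ∃ I : Finset (Φ → ZMod 2), I = univ.image c := ⟨_, rfl⟩
  have hcI : ∀ H, c H ∈ I := fun H => by rw [hI]; exact mem_image_of_mem _ (mem_univ _)
  have hIc : ∀ e : I, ∃ H, c H = e := fun e => by
    have h3 : ∀ z ∈ I, ∃ H, c H = z := by
      intro z hz
      rw [hI] at hz
      obtain ⟨H, _, hH⟩ := mem_image.1 hz
      exact ⟨H, hH⟩
    exact h3 e e.2
  have e5 : Module.finrank (ZMod 2) Φ ≤ I.card := by
    obtain ⟨g, hg⟩ : ∃ g : Φ →ₗ[ZMod 2] (I → ZMod 2), ∀ φ e, g φ e = (e : Φ → ZMod 2) φ := by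
      refine ⟨{ toFun := fun φ e => (e : Φ → ZMod 2) φ
                map_add' := ?_
                map_smul' := ?_ }, fun _ _ => rfl⟩
      · intro φ ψ
        funext e
        obtain ⟨H, hH⟩ := hIc e
        show (e : Φ → ZMod 2) (φ + ψ) = (e : Φ → ZMod 2) φ + (e : Φ → ZMod 2) ψ
        rw [← hH, hc]
        rfl
      · intro a φ
        funext e
        obtain ⟨H, hH⟩ := hIc e
        show (e : Φ → ZMod 2) (a • φ) = a * (e : Φ → ZMod 2) φ
        rw [← hH, hc]
        rfl
    have hgi : Function.Injective g := by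
      intro φ ψ h
      apply Subtype.ext
      funext H
      have h3 := congrFun h ⟨c H, hcI H⟩
      rw [hg, hg] at h3
      have h4 : c H φ = c H ψ := h3
      rw [hc] at h4
      exact h4
    have h3 := LinearMap.finrank_le_finrank_of_injective hgi
    rw [Module.finrank_fintype_fun_eq_card, Fintype.card_coe] at h3
    exact h3
  have e6 : 2 * I.card ≤ ∑ H ∈ N, o H := by
    have h3 : ∑ H ∈ N, o H = ∑ e ∈ I, ∑ H ∈ (univ : Finset N).filter (fun H => c H = e), o H := by
      rw [sum_fiberwise_of_maps_to (fun H _ => hcI H), sum_coe_sort N]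
    rw [h3, mul_comm, ← smul_eq_mul]
    refine card_nsmul_le_sum _ _ _ fun e he => ?_
    obtain ⟨H₀, hH₀⟩ := hIc ⟨e, he⟩
    have hH₀ : c H₀ = e := hH₀
    have h4 := hC (((univ : Finset N).filter (fun H => c H = e)).image Subtype.val) (by
      intro z hz
      obtain ⟨H, _, rfl⟩ := mem_image.1 hz
      exact H.2) ⟨H₀, mem_image.2 ⟨H₀, mem_filter.2 ⟨mem_univ _, hH₀⟩, rfl⟩⟩ (by
      intro y hy H hH hyH H' hH' hyH'
      obtain ⟨K, hK, rfl⟩ := mem_image.1 hH
      refine mem_image.2 ⟨⟨H', hH'⟩, mem_filter.2 ⟨mem_univ _, ?_⟩, rfl⟩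
      rw [← (mem_filter.1 hK).2, hc]
      funext φ
      exact hedge φ φ.2 y hy ⟨H', hH'⟩ K hyH' hyH)
    rw [sum_image (fun x _ y _ h => Subtype.ext h)] at h4
    exact h4
  omega

end

end Pool.Agent.Helper16.OG
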